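import Pool.Agent.Y148.OD.Stm2

/-!
# Project OD, job OD-8: the Newton polygon
-/

set_option autoImplicit false

namespace Pool.Agent.Y809.OD

open Pool.Agent.Y148.OD

section
variable {K Γ : Type} [Field K] [IsAlgClosed K] [LinearOrderedCommGroupWithZero Γ]
  (v : Valuation K Γ) (w : ℕ → Γ)

/-- the invariant -/
def Inv (j : ℕ) : Prop :=
  w j ≠ 0 ∧ (j = 0 ∨ ∃ c0 : K, c0 ≠ 0 ∧ (∀ i, i < j → v c0 ^ i * w i ≤ v c0 ^ j * w j) ∧
    ∀ i, j < i → v c0 ^ i * w i < v c0 ^ j * w j)

theorem step_aux (e j : ℕ) (hw : ∀ i, ∃ a : K, v a = w i) (he : w e ≠ 0)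
    (hz : ∀ i, e < i → w i = 0) (hj : Inv v w j) (hje : j < e) :
    ∃ j', j' ≤ e ∧ Step v w j j' ∧ Inv v w j' := by
  classical
  obtain ⟨hwj, hinv⟩ := hj
  -- the slopes
  have hroot : ∀ i, j < i → w i ≠ 0 → ∃ c : K, c ≠ 0 ∧ v c ^ i * w i = v c ^ j * w j := by
    intro i hi hwi
    obtain ⟨a, ha⟩ := hw j
    obtain ⟨a', ha'⟩ := hw i
    have ha'0 : a' ≠ 0 := by
      rintro rfl
      rw [map_zero] at ha'
      exact hwi ha'.symm
    have ha0 : a ≠ 0 := by
      rintro rfl
      rw [map_zero] at ha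
      exact hwj ha.symm
    obtain ⟨c, hc⟩ := IsAlgClosed.exists_pow_nat_eq (a / a') (show 0 < i - j by omega)
    have hc0 : c ≠ 0 := by
      rintro rfl
      rw [zero_pow (by omega)] at hc
      exact div_ne_zero ha0 ha'0 hc.symm
    refine ⟨c, hc0, ?_⟩
    have h1 : v c ^ (i - j) = w j / w i := by
      rw [← map_pow, hc, map_div₀, ha, ha']
    have h2 : i = j + (i - j) := by omega
    have h3 : v c ^ i = v c ^ j * v c ^ (i - j) := by
      rw [← pow_add, ← h2]
    rw [h3, h1, mul_assoc, div_mul_cancel₀ _ hwi]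
  choose! cf hcf0 hcf using hroot
  set A : Finset ℕ := (Finset.Ioc j e).filter (fun i => w i ≠ 0) with hA
  have hmA : ∀ i, i ∈ A ↔ (j < i ∧ i ≤ e) ∧ w i ≠ 0 := by
    intro i
    rw [hA, Finset.mem_filter, Finset.mem_Ioc]
  have hAne : A.Nonempty := ⟨e, (hmA e).2 ⟨⟨hje, le_rfl⟩, he⟩⟩
  obtain ⟨i0, hi0, hmin⟩ := Finset.exists_min_image A (fun i => v (cf i)) hAne
  obtain ⟨⟨hi01, hi02⟩, hi03⟩ := (hmA i0).1 hi0
  set c : K := cf i0 with hc
  have hc0 : c ≠ 0 := hcf0 i0 hi01 hi03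
  have hvc : v c ≠ 0 := (Valuation.ne_zero_iff v).2 hc0
  have hci0 : v c ^ i0 * w i0 = v c ^ j * w j := hcf i0 hi01 hi03
  have hpos : 0 < v c ^ j * w j := zero_lt_iff.2 (mul_ne_zero (pow_ne_zero _ hvc) hwj)
  -- all coefficients after `j`
  have hgt : ∀ i, j < i → v c ^ i * w i ≤ v c ^ j * w j := by
    intro i hi
    by_cases hwi : w i = 0
    · rw [hwi, mul_zero]
      exact hpos.le
    have hie : i ≤ e := by
      by_contra hcon
      exact hwi (hz i (by omega))
    have h1 := hmin i ((hmA i).2 ⟨⟨hi, hie⟩, hwi⟩)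
    have h2 := hcf i hi hwi
    have hvi : v (cf i) ≠ 0 := (Valuation.ne_zero_iff v).2 (hcf0 i hi hwi)
    have h3 : v (cf i) ^ (i - j) * w i = w j := by
      have h4 : v (cf i) ^ i = v (cf i) ^ j * v (cf i) ^ (i - j) := by
        rw [← pow_add]
        congr 1
        omega
      rw [h4, mul_assoc] at h2
      exact mul_left_cancel₀ (pow_ne_zero _ hvi) h2
    have h5 : v c ^ i = v c ^ j * v c ^ (i - j) := by
      rw [← pow_add]
      congr 1
      omega
    rw [h5, mul_assoc]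
    refine mul_le_mul_right ?_ _
    calc v c ^ (i - j) * w i ≤ v (cf i) ^ (i - j) * w i := by
          exact mul_le_mul_left (pow_le_pow_left₀ zero_le h1 _) _
      _ = w j := h3
  -- the largest index
  obtain ⟨j', hj', hmax⟩ := Finset.exists_max_image
    (A.filter (fun i => v c ^ i * w i = v c ^ j * w j)) id
    ⟨i0, Finset.mem_filter.2 ⟨hi0, hci0⟩⟩
  obtain ⟨hj'A, hj'e⟩ := Finset.mem_filter.1 hj'
  obtain ⟨⟨hj'1, hj'2⟩, hj'3⟩ := (hmA j').1 hj'A
  have hgt' : ∀ i, j' < i → v c ^ i * w i < v c ^ j * w j := by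
    intro i hi
    refine lt_of_le_of_ne (hgt i (by omega)) fun h => ?_
    have hwi : w i ≠ 0 := by
      intro h0
      rw [h0, mul_zero] at h
      exact hpos.ne h
    have hie : i ≤ e := by
      by_contra hcon
      exact hwi (hz i (by omega))
    have := hmax i (Finset.mem_filter.2 ⟨(hmA i).2 ⟨⟨by omega, hie⟩, hwi⟩, h⟩)
    simp only [id] at this
    omega
  have hlt : ∀ i, i < j → v c ^ i * w i < v c ^ j * w j := by
    intro i hi
    rcases hinv with h0 | ⟨c0, hc00, hl, hr⟩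
    · omega
    have hvc0 : v c0 ≠ 0 := (Valuation.ne_zero_iff v).2 hc00
    have h1 : v c0 < v c := by
      by_contra hcon
      push Not at hcon
      have h2 := hr i0 hi01
      have h3 : v c0 ^ i0 = v c0 ^ j * v c0 ^ (i0 - j) := by
        rw [← pow_add]
        congr 1
        omega
      rw [h3, mul_assoc] at h2
      have h4 : v c0 ^ (i0 - j) * w i0 < w j :=
        lt_of_mul_lt_mul_left h2 zero_le
      have h5 : v c ^ (i0 - j) * w i0 = w j := by
        have h6 : v c ^ i0 = v c ^ j * v c ^ (i0 - j) := by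
          rw [← pow_add]
          congr 1
          omega
        have h7 := hci0
        rw [h6, mul_assoc] at h7
        exact mul_left_cancel₀ (pow_ne_zero _ hvc) h7
      have h8 : v c ^ (i0 - j) * w i0 ≤ v c0 ^ (i0 - j) * w i0 :=
        mul_le_mul_left (pow_le_pow_left₀ zero_le hcon _) _
      rw [h5] at h8
      exact absurd h4 (not_lt.2 h8)
    have h2 := hl i hi
    have h3 : v c0 ^ j = v c0 ^ i * v c0 ^ (j - i) := by
      rw [← pow_add]
      congr 1
      omega
    rw [h3, mul_assoc] at h2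
    have h4 : w i ≤ v c0 ^ (j - i) * w j := by
      exact le_of_mul_le_mul_left h2 (zero_lt_iff.2 (pow_ne_zero _ hvc0))
    have h5 : v c ^ j = v c ^ i * v c ^ (j - i) := by
      rw [← pow_add]
      congr 1
      omega
    have h6 : v c0 ^ (j - i) < v c ^ (j - i) :=
      pow_lt_pow_left₀ h1 zero_le (by omega)
    have h7 : w i < v c ^ (j - i) * w j :=
      lt_of_le_of_lt h4 (mul_lt_mul_of_pos_right h6 (zero_lt_iff.2 hwj))
    rw [h5, mul_assoc]
    exact mul_lt_mul_of_pos_left h7 (zero_lt_iff.2 (pow_ne_zero _ hvc))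
  refine ⟨j', hj'2, ⟨hj'1, c, hc0, hj'e.symm, hwj, ?_, ?_⟩, hj'3, Or.inr ⟨c, hc0, ?_, ?_⟩⟩
  · intro i
    rcases lt_trichotomy i j with h | h | h
    · exact (hlt i h).le
    · rw [h]
    · exact hgt i h
  · rintro i (h | h)
    · exact hlt i h
    · exact hgt' i h
  · intro i hi
    rw [hj'e]
    rcases lt_trichotomy i j with h | h | h
    · exact (hlt i h).le
    · rw [h]
    · exact hgt i h
  · intro i hi
    rw [hj'e]
    exact hgt' i hi

theorem newton_aux (e : ℕ) (hw : ∀ i, ∃ a : K, v a = w i) (he : w e ≠ 0)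
    (hz : ∀ i, e < i → w i = 0) : ∀ n j, e - j ≤ n → j ≤ e → Inv v w j →
      Relation.ReflTransGen (Step v w) j e := by
  intro n
  induction n with
  | zero =>
    intro j h1 h2 _
    have : j = e := by omega
    rw [this]
  | succ n ih =>
    intro j h1 h2 h3
    rcases h2.eq_or_lt with h4 | h4
    · rw [h4]
    obtain ⟨j', h5, h6, h7⟩ := step_aux v w e j hw he hz h3 h4
    exact Relation.ReflTransGen.head h6 (ih j' (by have := h6.1; omega) h5 h7)

end

/-- OD-8 -/
theorem newton : StmNewton := by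
  intro K Γ _ _ _ v w e hw h0 he hz
  exact newton_aux v w e hw he hz e 0 (by omega) (Nat.zero_le _) ⟨h0, Or.inl rfl⟩

end Pool.Agent.Y809.OD
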