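import Pool.Agent.Y148.OD.Stm

/-!
# Extension of homomorphisms of countable fields
-/

set_option autoImplicit false

namespace Pool.Agent.Y809.OD

open MvPolynomial Cardinal

/-- OD-2 -/
theorem hom : Pool.Agent.Y148.OD.StmHom := by
  intro Ω _ _ _ E F _ _ _ f g
  letI : Algebra E F := f.toAlgebra
  letI : Algebra E Ω := g.toAlgebra
  obtain ⟨I, x, hx⟩ := exists_isTranscendenceBasis' E F
  obtain ⟨J, b, hb⟩ := exists_isTranscendenceBasis' E Ω
  have hE : Countable E := f.injective.countable
  have h1 : #Ω = #J := IsAlgClosed.cardinal_eq_cardinal_transcendence_basis_of_aleph0_lt' b hb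
    (mk_le_aleph0 (α := E)) (aleph0_lt_mk (α := Ω))
  have h2 : #I ≤ #J := by
    have h3 : Countable I := hx.1.injective.countable
    rw [← h1]
    exact (mk_le_aleph0 (α := I)).trans (aleph0_lt_mk (α := Ω)).le
  obtain ⟨e⟩ := Cardinal.le_def _ _ |>.1 h2
  have hb' : AlgebraicIndependent E (b ∘ e) := hb.1.comp e e.injective
  set R := Algebra.adjoin E (Set.range x) with hR
  have halg : Algebra.IsAlgebraic R F := hx.isAlgebraic
  let g' : R →ₐ[E] Ω := (aeval (b ∘ e)).comp (hx.1.aevalEquiv.symm : R →ₐ[E] MvPolynomial I E)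
  have hg' : Function.Injective g' := by
    have h3 : Function.Injective (aeval (b ∘ e) : MvPolynomial I E →ₐ[E] Ω) := hb'
    exact h3.comp hx.1.aevalEquiv.symm.injective
  letI : Algebra R Ω := g'.toRingHom.toAlgebra
  haveI : Module.IsTorsionFree R Ω :=
    Module.isTorsionFree_iff_algebraMap_injective.2 hg'
  haveI : Module.IsTorsionFree R F :=
    Module.isTorsionFree_iff_algebraMap_injective.2 Subtype.val_injective
  let h : F →ₐ[R] Ω := IsAlgClosed.lift
  refine ⟨h.toRingHom, ?_⟩
  ext a
  have h4 : h (algebraMap R F (algebraMap E R a)) = algebraMap R Ω (algebraMap E R a) :=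
    h.commutes _
  have h5 : algebraMap R Ω (algebraMap E R a) = g a := g'.commutes a
  exact h4.trans h5

end Pool.Agent.Y809.OD
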