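import Pool.Agent.Y148.OD.Stm2
import Pool.Agent.Y815.OD.Spec
import Pool.Agent.Y809.OD.Hom

/-!
# Project OD, job OD-7: extension of a homomorphism to a place
-/

set_option autoImplicit false

namespace Pool.Agent.Y809.OD

open Pool.Agent.Y148.OD Cardinal

/-- OD-7 -/
theorem place : StmPlace := by
  intro Ω _ _ _ A hA ψ T hT
  classical
  -- the field
  let K0 : Subfield Ω := Subfield.closure ((A : Set Ω) ∪ T)
  have hK0 : Countable K0 := by
    have h1 : Countable ((A : Set Ω) ∪ T : Set Ω) := by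
      rw [Set.countable_coe_iff]
      exact (Set.countable_coe_iff.1 hA).union hT
    have h2 := Subfield.cardinalMk_closure_le_max ((A : Set Ω) ∪ T)
    rw [← Cardinal.mk_le_aleph0_iff]
    refine h2.trans (max_le ?_ le_rfl)
    exact Cardinal.mk_le_aleph0_iff.2 h1
  let K1 : IntermediateField K0 Ω := algebraicClosure K0 Ω
  have hK1 : Countable K1 := by
    rw [← Cardinal.mk_le_aleph0_iff]
    refine (Algebra.IsAlgebraic.cardinalMk_le_max K0 K1).trans (max_le ?_ le_rfl)
    exact Cardinal.mk_le_aleph0_iff.2 hK0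
  have hK1a : IsAlgClosed K1 := IsAlgClosure.isAlgClosed K0
  let K : Subfield Ω := K1.toSubfield
  have hK : Countable K := hK1
  have hKa : IsAlgClosed K := hK1a
  have hsub : ∀ x ∈ ((A : Set Ω) ∪ T), x ∈ K := by
    intro x hx
    have h1 : x ∈ K0 := Subfield.subset_closure hx
    exact K1.algebraMap_mem ⟨x, h1⟩
  -- the ring
  let A' : Subring K := A.comap K.subtype
  let e : A' →+* A :=
    { toFun := fun x => ⟨((x : K) : Ω), x.2⟩
      map_one' := rfl
      map_mul' := fun _ _ => rfl
      map_zero' := rfl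
      map_add' := fun _ _ => rfl }
  let ψ' : A' →+* Ω := ψ.comp e
  have hp : (RingHom.ker ψ').IsPrime := RingHom.ker_isPrime ψ'
  obtain ⟨B, j, hj, hres⟩ := Pool.Agent.Y815.OD.exists_val A' (RingHom.ker ψ')
  let κ := IsLocalRing.ResidueField B
  let res : B →+* κ := IsLocalRing.residue B
  have hB : Countable B := (Subtype.val_injective (p := fun x => x ∈ B)).countable
  have hκ : Countable κ := (IsLocalRing.residue_surjective (R := B)).countable
  let f1 : A' ⧸ RingHom.ker ψ' →+* κ :=
    Ideal.Quotient.lift _ (res.comp j) fun a ha => (hres a).2 ha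
  let g1 : A' ⧸ RingHom.ker ψ' →+* Ω := Ideal.Quotient.lift _ ψ' fun a ha => ha
  have hf1 : Function.Injective f1 := by
    rw [injective_iff_map_eq_zero]
    intro x hx
    obtain ⟨a, rfl⟩ := Ideal.Quotient.mk_surjective x
    exact Ideal.Quotient.eq_zero_iff_mem.2 ((hres a).1 hx)
  have hg1 : Function.Injective g1 := by
    rw [injective_iff_map_eq_zero]
    intro x hx
    obtain ⟨a, rfl⟩ := Ideal.Quotient.mk_surjective x
    exact Ideal.Quotient.eq_zero_iff_mem.2 hx
  let E := FractionRing (A' ⧸ RingHom.ker ψ')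
  let fE : E →+* κ := IsFractionRing.lift hf1
  let gE : E →+* Ω := IsFractionRing.lift hg1
  obtain ⟨h, hh⟩ := hom Ω E κ fE gE
  refine ⟨K, B, h.comp res, hK, hKa, fun x hx => hsub x (Or.inr hx), ?_, ?_⟩
  · intro u
    rw [RingHom.comp_apply, map_eq_zero, IsLocalRing.residue_eq_zero_iff,
      IsLocalRing.mem_maximalIdeal, mem_nonunits_iff]
  · intro a
    let a' : A' := ⟨⟨(a : Ω), hsub _ (Or.inl a.2)⟩, a.2⟩
    refine ⟨j a', ?_, ?_⟩
    · rw [hj]
    · have h1 : res (j a') = fE (algebraMap _ E (Ideal.Quotient.mk (RingHom.ker ψ') a')) := by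
        rw [IsFractionRing.lift_algebraMap]
        rfl
      rw [RingHom.comp_apply, h1, ← RingHom.comp_apply, hh, IsFractionRing.lift_algebraMap]
      rfl

end Pool.Agent.Y809.OD
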