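import Pool.Agent.Y148.OD.Stm2
import Pool.Agent.Y815.OD.Spec
import Pool.Agent.Y809.OD.Hom

/-!
# Project OD, job OD-9: reduction of families of Chow forms
-/

set_option autoImplicit false

namespace Pool.Agent.Y809.OD

open Pool.Agent.Y148.OD MvPolynomial

section
variable {Ω : Type} [Field Ω] {τ : Type} [Fintype τ]

/-- the generic Chow form -/
noncomputable def gen (τ : Type) [Fintype τ] (n : ℕ) (A : Type) [CommRing A] :
    MvPolynomial τ (MvPolynomial (Fin n × τ) A) :=
  ∏ i : Fin n, ∑ a : τ, C (X (i, a)) * X a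

lemma map_gen {A : Type} [CommRing A] (n : ℕ) (ε : MvPolynomial (Fin n × τ) A →+* Ω) :
    MvPolynomial.map ε (gen τ n A) = ∏ i, lin (fun a => ε (X (i, a))) := by
  unfold gen lin
  rw [map_prod]
  refine Finset.prod_congr rfl fun i _ => ?_
  rw [map_sum]
  refine Finset.sum_congr rfl fun a _ => ?_
  rw [map_mul, map_C, map_X]

lemma lin_ne_zero {v : τ → Ω} (hv : v ≠ 0) : lin v ≠ 0 := by
  classical
  intro h
  apply hv
  funext a
  have h1 := congrArg (coeff (Finsupp.single a 1)) h
  rw [coeff_zero] at h1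
  unfold lin at h1
  rw [coeff_sum, Finset.sum_eq_single a] at h1
  · rw [coeff_C_mul, coeff_X, if_pos rfl, mul_one] at h1
    exact h1
  · intro b _ hb
    rw [coeff_C_mul, coeff_X, if_neg, mul_zero]
    intro h2
    exact hb (Finsupp.single_left_injective one_ne_zero h2)
  · intro h
    exact absurd (Finset.mem_univ _) h

lemma lin_smul (c : Ω) (v : τ → Ω) : lin (fun a => c * v a) = C c * lin v := by
  unfold lin
  rw [Finset.mul_sum]
  refine Finset.sum_congr rfl fun a _ => ?_
  rw [C_mul, mul_assoc]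

end

section
variable {Ω : Type} [Field Ω] [IsAlgClosed Ω] [Uncountable Ω] {τ : Type} [Fintype τ]
  (V : Set (τ → Ω)) (k : Subfield Ω)
  (hV : ∃ S : Set (MvPolynomial τ k), ∀ v : τ → Ω, v ∈ V ↔ v ≠ 0 ∧ ∀ P ∈ S, aeval v P = 0)
  (hVs : ∀ (c : Ω) (v : τ → Ω), c ≠ 0 → v ∈ V → c • v ∈ V)
include hV hVs

/-- closedness of the set of the multiples of Chow forms -/
theorem closed (A : Subring Ω) (hA : Countable A) (ψ : A →+* Ω)
    (hk : ∀ a : k, ∃ u : A, (u : Ω) = a ∧ ψ u = a) (n : ℕ) (H : MvPolynomial τ A)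
    (h : IsCyc (vlin V) n (MvPolynomial.map A.subtype H)) :
    IsCyc (vlin V) n (MvPolynomial.map ψ H) := by
  classical
  obtain ⟨S, hS⟩ := hV
  obtain ⟨c0, z, hz⟩ := h
  have hz0 : ∀ i, (z i : τ → Ω) ≠ 0 := fun i => ((hS _).1 (z i).2).1
  obtain ⟨c, z', hc, hz', hrel⟩ := Pool.Agent.Y815.OD.spec_of_hom hom Ω (Fin n) τ A hA ψ
    (fun i => (z i : τ → Ω)) hz0
  -- the homomorphism from `k`
  have hkA : ∀ a : k, (a : Ω) ∈ A := by
    intro a
    obtain ⟨u, hu, -⟩ := hk a
    rw [← hu]
    exact u.2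
  let kA : k →+* A :=
    { toFun := fun a => ⟨(a : Ω), hkA a⟩
      map_one' := rfl
      map_mul' := fun _ _ => rfl
      map_zero' := rfl
      map_add' := fun _ _ => rfl }
  have hkψ : ψ.comp kA = algebraMap k Ω := by
    ext a
    obtain ⟨u, hu, hu2⟩ := hk a
    have h1 : kA a = u := Subtype.ext hu.symm
    rw [RingHom.comp_apply, h1, hu2]
    rfl
  have hkι : A.subtype.comp kA = algebraMap k Ω := by
    ext a
    rfl
  have hzV : ∀ i, z' i ∈ V := by
    intro i
    rw [hS]
    refine ⟨hz' i, fun P hP => ?_⟩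
    have h1 := hVs (c i) _ (hc i) (z i).2
    have h2 := ((hS _).1 h1).2 P hP
    have h3 := hrel (rename (fun a => (i, a)) (MvPolynomial.map kA P)) ?_
    · rw [eval₂_rename, eval₂_map, hkψ] at h3
      exact h3
    · rw [eval₂_rename, eval₂_map, hkι]
      exact h2
  -- the coefficients
  let ε1 : MvPolynomial (Fin n × τ) A →+* Ω := eval₂Hom A.subtype (fun p => c p.1 * (z p.1 : τ → Ω) p.2)
  let ε2 : MvPolynomial (Fin n × τ) A →+* Ω := eval₂Hom ψ (fun p => z' p.1 p.2)
  have hg1 : MvPolynomial.map ε1 (gen τ n A) = C (∏ i, c i) * chow (vlin V) z := by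
    rw [map_gen, chow, map_prod, ← Finset.prod_mul_distrib]
    refine Finset.prod_congr rfl fun i _ => ?_
    have h1 : (fun a => ε1 (X (i, a))) = fun a => c i * (z i : τ → Ω) a := by
      funext a
      exact eval₂Hom_X' _ _ _
    rw [h1, lin_smul]
    rfl
  have hg2 : MvPolynomial.map ε2 (gen τ n A) = chow (vlin V) (fun i => (⟨z' i, hzV i⟩ : V)) := by
    rw [map_gen, chow]
    refine Finset.prod_congr rfl fun i _ => ?_
    have h1 : (fun a => ε2 (X (i, a))) = z' i := by
      funext a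
      exact eval₂Hom_X' _ _ _
    rw [h1]
    rfl
  have hcoef : ∀ α β, ψ (coeff α H) * coeff β (chow (vlin V) (fun i => (⟨z' i, hzV i⟩ : V))) =
      ψ (coeff β H) * coeff α (chow (vlin V) (fun i => (⟨z' i, hzV i⟩ : V))) := by
    intro α β
    have h1 := hrel (C (coeff α H) * coeff β (gen τ n A) - C (coeff β H) * coeff α (gen τ n A)) ?_
    · have h2 : ε2 (C (coeff α H) * coeff β (gen τ n A) -
          C (coeff β H) * coeff α (gen τ n A)) = 0 := h1
      rw [map_sub, map_mul, map_mul, ← coeff_map ε2 _ β, ← coeff_map ε2 _ α, hg2,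
        sub_eq_zero] at h2
      have h3 : ∀ x : A, ε2 (C x) = ψ x := fun x => eval₂Hom_C _ _ _
      rw [h3, h3] at h2
      exact h2
    · have h2 : ε1 (C (coeff α H) * coeff β (gen τ n A) -
          C (coeff β H) * coeff α (gen τ n A)) = 0 := by
        have h3 : ∀ x : A, ε1 (C x) = A.subtype x := fun x => eval₂Hom_C _ _ _
        rw [map_sub, map_mul, map_mul, ← coeff_map ε1 _ β, ← coeff_map ε1 _ α, hg1, h3, h3,
          ← coeff_map A.subtype _ α, ← coeff_map A.subtype _ β, hz, coeff_C_mul, coeff_C_mul,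
          coeff_C_mul, coeff_C_mul]
        ring
      exact h2
  have hne : chow (vlin V) (fun i => (⟨z' i, hzV i⟩ : V)) ≠ 0 := by
    rw [chow, Finset.prod_ne_zero_iff]
    exact fun i _ => lin_ne_zero (hz' i)
  obtain ⟨β, hβ⟩ := ne_zero_iff.1 hne
  refine ⟨ψ (coeff β H) / coeff β (chow (vlin V) (fun i => (⟨z' i, hzV i⟩ : V))),
    fun i => ⟨z' i, hzV i⟩, ?_⟩
  ext α
  rw [coeff_map, coeff_C_mul, div_mul_eq_mul_div, eq_div_iff hβ]
  exact hcoef α β

omit [IsAlgClosed Ω] [Uncountable Ω] [Fintype τ] hV hVs in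
/-- elements transcendental over a countable ring -/
theorem exists_trans [Uncountable Ω] {R : Type} [CommRing R] [Countable R] (ι : R →+* Ω)
    (hι : Function.Injective ι) : ∃ σ : Ω, ∀ p : Polynomial R, p.eval₂ ι σ = 0 → p = 0 := by
  classical
  by_contra hcon
  push Not at hcon
  have hc : Countable (Polynomial R) := by
    rw [← Cardinal.mk_le_aleph0_iff]
    exact Polynomial.cardinalMk_le_max.trans (max_le (Cardinal.mk_le_aleph0) le_rfl)
  have h1 : (Set.univ : Set Ω) ⊆ ⋃ p : {p : Polynomial R // p ≠ 0},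
      {x | x ∈ (p.1.map ι).roots} := by
    intro σ _
    obtain ⟨p, hp, hp0⟩ := hcon σ
    refine Set.mem_iUnion.2 ⟨⟨p, hp0⟩, ?_⟩
    change σ ∈ (p.map ι).roots
    rw [Polynomial.mem_roots ((Polynomial.map_ne_zero_iff hι).2 hp0), Polynomial.IsRoot,
      Polynomial.eval_map]
    exact hp
  have h2 : (⋃ p : {p : Polynomial R // p ≠ 0}, {x | x ∈ (p.1.map ι).roots}).Countable := by
    refine Set.countable_iUnion fun p => ?_
    refine Set.Finite.countable ?_
    refine Set.Finite.subset (p.1.map ι).roots.toFinset.finite_toSet fun x hx => ?_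
    exact Multiset.mem_toFinset.2 hx
  exact Set.not_countable_univ (h2.mono h1)

/-- specialisation of the parameter -/
theorem spec1 {R : Type} [CommRing R] [Countable R] (ι θ : R →+* Ω)
    (hk : ∀ a : k, ∃ u : R, ι u = a ∧ θ u = a) (σ s1 : Ω)
    (hσ : ∀ p : Polynomial R, p.eval₂ ι σ = 0 → p = 0) (n : ℕ)
    (G : Polynomial (MvPolynomial τ R))
    (h : IsCyc (vlin V) n (G.eval₂ (MvPolynomial.map ι) (C σ))) :
    IsCyc (vlin V) n (G.eval₂ (MvPolynomial.map θ) (C s1)) := by
  classical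
  let E : Polynomial R →+* Ω := Polynomial.eval₂RingHom ι σ
  let A : Subring Ω := E.range
  let e : Polynomial R ≃+* A := RingEquiv.ofBijective E.rangeRestrict
    ⟨by
      rw [injective_iff_map_eq_zero]
      intro p hp
      exact hσ p (congrArg Subtype.val hp), E.rangeRestrict_surjective⟩
  have hc : Countable (Polynomial R) := by
    rw [← Cardinal.mk_le_aleph0_iff]
    exact Polynomial.cardinalMk_le_max.trans (max_le (Cardinal.mk_le_aleph0) le_rfl)
  have hA : Countable A := e.surjective.countable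
  let ψ : A →+* Ω := (Polynomial.eval₂RingHom θ s1).comp (e.symm : A →+* Polynomial R)
  have hψ : ∀ p, ψ (e p) = p.eval₂ θ s1 := by
    intro p
    change Polynomial.eval₂RingHom θ s1 (e.symm (e p)) = _
    rw [RingEquiv.symm_apply_apply]
    rfl
  have hι : ∀ p, A.subtype (e p) = p.eval₂ ι σ := fun p => rfl
  let c1 : R →+* A := (e : Polynomial R →+* A).comp Polynomial.C
  have hc1 : A.subtype.comp c1 = ι := by
    ext r
    change A.subtype (e (Polynomial.C r)) = _
    rw [hι, Polynomial.eval₂_C]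
  have hc2 : ψ.comp c1 = θ := by
    ext r
    change ψ (e (Polynomial.C r)) = _
    rw [hψ, Polynomial.eval₂_C]
  set H : MvPolynomial τ A := G.eval₂ (MvPolynomial.map c1) (C (e Polynomial.X)) with hH
  have h1 : MvPolynomial.map A.subtype H = G.eval₂ (MvPolynomial.map ι) (C σ) := by
    rw [hH, Polynomial.hom_eval₂, map_C, hι, Polynomial.eval₂_X]
    congr 1
    refine RingHom.ext fun x => ?_
    rw [RingHom.comp_apply, map_map, hc1]
  have h2 : MvPolynomial.map ψ H = G.eval₂ (MvPolynomial.map θ) (C s1) := by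
    rw [hH, Polynomial.hom_eval₂, map_C, hψ, Polynomial.eval₂_X]
    congr 1
    refine RingHom.ext fun x => ?_
    rw [RingHom.comp_apply, map_map, hc2]
  rw [← h2]
  refine closed V k hV hVs A hA ψ ?_ n H (by rw [h1]; exact h)
  intro a
  obtain ⟨u, hu1, hu2⟩ := hk a
  refine ⟨c1 u, ?_, ?_⟩
  · rw [← hu1, ← hc1]
    rfl
  · rw [← hu2, ← hc2]
    rfl

end

/-- multiples -/
lemma isCyc_mul {Ω τ : Type} [Field Ω] [Fintype τ] {P : Type} {ℓ : P → MvPolynomial τ Ω} {n : ℕ}
    {f : MvPolynomial τ Ω} (c : Ω) (h : IsCyc ℓ n f) : IsCyc ℓ n (C c * f) := by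
  obtain ⟨c', z, rfl⟩ := h
  exact ⟨c * c', z, by rw [C_mul, mul_assoc]⟩

/-- reversal of a family -/
lemma reverse_cyc {Ω τ : Type} [Field Ω] [Fintype τ] {P : Type} {ℓ : P → MvPolynomial τ Ω}
    {n : ℕ} (F : Polynomial (MvPolynomial τ Ω))
    (h : ∀ s : Ω, s ≠ 0 → IsCyc ℓ n (F.eval (C s))) (s : Ω) (hs : s ≠ 0) :
    IsCyc ℓ n (F.reverse.eval (C s)) := by
  let _ : Invertible (C s⁻¹ : MvPolynomial τ Ω) := ⟨C s, by rw [← C_mul, mul_inv_cancel₀ hs, C_1],
    by rw [← C_mul, inv_mul_cancel₀ hs, C_1]⟩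
  have h1 := Polynomial.eval₂_reverse_mul_pow (RingHom.id _) (C s⁻¹ : MvPolynomial τ Ω) F
  have h2 : (⅟(C s⁻¹ : MvPolynomial τ Ω)) = C s := rfl
  rw [h2] at h1
  have h3 : F.reverse.eval (C s) = C (s ^ F.natDegree) * F.eval (C s⁻¹) := by
    have h4 : F.eval (C s⁻¹) = F.reverse.eval (C s) * (C s⁻¹) ^ F.natDegree := h1.symm
    rw [h4, mul_left_comm, ← C_pow, ← C_mul, ← mul_pow, mul_inv_cancel₀ hs, one_pow, C_1, mul_one]
  rw [h3]
  exact isCyc_mul _ (h _ (inv_ne_zero hs))

lemma reverse_map' {R S : Type} [CommRing R] [CommRing S] (f : R →+* S)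
    (hf : Function.Injective f) (p : Polynomial R) : (p.map f).reverse = p.reverse.map f := by
  unfold Polynomial.reverse
  rw [Polynomial.natDegree_map_eq_of_injective hf, Polynomial.reflect_map]

/-- OD-9 -/
theorem reduce : StmReduce := by
  intro Ω _ _ _ τ _ V k hV hVs K O θ hK hk n G hG G' hG' hG0
  classical
  have hO : Countable O := (Subtype.val_injective (p := fun x => x ∈ O)).countable
  -- the reduction is a family
  let ι : O →+* Ω := (algebraMap K Ω).comp (algebraMap O K)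
  have hιi : Function.Injective ι :=
    (algebraMap K Ω).injective.comp (Subtype.val_injective (p := fun x => x ∈ O))
  obtain ⟨σ, hσ⟩ := exists_trans ι hιi
  have h1 : ∀ s : Ω, IsCyc (vlin V) n (G'.eval (C s)) := by
    intro s
    rw [hG', Polynomial.eval_map]
    refine spec1 V k hV hVs ι θ hk σ s hσ n G ?_
    have h2 := hG σ
    rwa [Polynomial.eval_map] at h2
  -- the residue field
  let κ : Subfield Ω := Subfield.closure (Set.range θ)
  have hκ : Countable κ := by
    have h2 := Subfield.cardinalMk_closure_le_max (Set.range θ)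
    rw [← Cardinal.mk_le_aleph0_iff]
    refine h2.trans (max_le ?_ le_rfl)
    exact Cardinal.mk_le_aleph0_iff.2 (Set.countable_coe_iff.2 (Set.countable_range _))
  let θκ : O →+* κ := θ.codRestrict κ fun x => Subfield.subset_closure ⟨x, rfl⟩
  have hκk : ∀ a : k, ∃ u : κ, κ.subtype u = a ∧ κ.subtype u = a := by
    intro a
    obtain ⟨u, -, hu⟩ := hk a
    exact ⟨θκ u, hu, hu⟩
  have hmi : Function.Injective (MvPolynomial.map (σ := τ) κ.subtype) :=
    map_injective _ κ.subtype.injective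
  obtain ⟨σ2, hσ2⟩ := exists_trans κ.subtype κ.subtype.injective
  have hσ20 : σ2 ≠ 0 := by
    rintro rfl
    have h2 := hσ2 Polynomial.X (by rw [Polynomial.eval₂_X])
    exact Polynomial.X_ne_zero h2
  have hzero : ∀ f : Polynomial (MvPolynomial τ κ),
      (∀ s : Ω, s ≠ 0 → IsCyc (vlin V) n ((f.map (MvPolynomial.map κ.subtype)).eval (C s))) →
      ∀ s : Ω, IsCyc (vlin V) n ((f.map (MvPolynomial.map κ.subtype)).eval (C s)) := by
    intro f hf s
    by_cases hs : s = 0
    · rw [Polynomial.eval_map]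
      refine spec1 V k hV hVs κ.subtype κ.subtype hκk σ2 s hσ2 n f ?_
      have h2 := hf σ2 hσ20
      rwa [Polynomial.eval_map] at h2
    · exact hf s hs
  set f : Polynomial (MvPolynomial τ κ) := G.map (MvPolynomial.map θκ) with hf
  have hfG : f.map (MvPolynomial.map κ.subtype) = G' := by
    rw [hf, hG', Polynomial.map_map]
    congr 1
    refine RingHom.ext fun x => ?_
    rw [RingHom.comp_apply, map_map]
    rfl
  have h2 : ∀ s : Ω, IsCyc (vlin V) n (G'.reverse.eval (C s)) := by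
    have h3 := hzero f.reverse (by
      intro s hs
      rw [← reverse_map' _ hmi, hfG]
      exact reverse_cyc _ (fun s _ => h1 s) s hs)
    intro s
    have h4 := h3 s
    rwa [← reverse_map' _ hmi, hfG] at h4
  have h3 : ∀ s : Ω, IsCyc (vlin V) n (G'.reverse.reverse.eval (C s)) := by
    have h3 := hzero f.reverse.reverse (by
      intro s hs
      rw [← reverse_map' _ hmi, ← reverse_map' _ hmi, hfG]
      exact reverse_cyc _ (fun s _ => h2 s) s hs)
    intro s
    have h4 := h3 s
    rwa [← reverse_map' _ hmi, ← reverse_map' _ hmi, hfG] at h4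
  have h4 : G'.reverse.reverse.coeff 0 = G'.trailingCoeff := by
    rw [Polynomial.coeff_zero_reverse, Polynomial.reverse_leadingCoeff]
  have h5 : G'.reverse.reverse.leadingCoeff = G'.leadingCoeff := by
    rw [Polynomial.reverse_leadingCoeff, Polynomial.reverse_trailingCoeff]
  refine ⟨?_, ?_, G'.reverse.reverse, h4, h5, h3⟩
  · have h6 := h2 0
    rwa [C_0, ← Polynomial.coeff_zero_eq_eval_zero, Polynomial.coeff_zero_reverse] at h6
  · have h6 := h3 0
    rwa [C_0, ← Polynomial.coeff_zero_eq_eval_zero, h4] at h6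

end Pool.Agent.Y809.OD
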